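import Mathlib
import Pool.Agent.H317.GI.Stm

/-!
# Project GI, CUN: a matrix in `SL_3(ℤ)` commuting with a unipotent matrix (helper372)

A power `N` of `X - 1` is `a b` with nonzero integral vectors, `b · a = 0`. `Y` maps `a` to `± a` and
`b` to `± b` (same sign), so `C = Y ^ 2` fixes `a` and `b`. For `B = C - 1`: `det B = 0`, and the sum of
the principal `2 × 2` minors of `B` is zero (as `B a = 0`, `b B = 0`, `b · a = 0`), so `det C = 1` gives
`tr B = 0`, and `B ^ 3 = 0` by the theorem of Cayley and Hamilton.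
-/

set_option autoImplicit false

namespace Pool.Agent.H372.GI

open Matrix Module Pool.Agent.H317.GR Pool.Agent.H317.GH Pool.Agent.H317.GI

theorem cube0 (B : Matrix (Fin 3) (Fin 3) ℤ)
    (ht : B 0 0 + B 1 1 + B 2 2 = 0)
    (hE : B 0 0 * B 1 1 - B 0 1 * B 1 0 + B 0 0 * B 2 2 - B 0 2 * B 2 0 +
      B 1 1 * B 2 2 - B 1 2 * B 2 1 = 0)
    (hd : B 0 0 * B 1 1 * B 2 2 - B 0 0 * B 1 2 * B 2 1 - B 0 1 * B 1 0 * B 2 2 +
      B 0 1 * B 1 2 * B 2 0 + B 0 2 * B 1 0 * B 2 1 - B 0 2 * B 1 1 * B 2 0 = 0) :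
    B ^ 3 = 0 := by
  have hsq : ∀ i j, (B ^ 2) i j = B i 0 * B 0 j + B i 1 * B 1 j + B i 2 * B 2 j := by
    intro i j
    rw [pow_two, Matrix.mul_apply, Fin.sum_univ_three]
  have hcu : ∀ i j, (B ^ 3) i j = (B ^ 2) i 0 * B 0 j + (B ^ 2) i 1 * B 1 j + (B ^ 2) i 2 * B 2 j := by
    intro i j
    rw [pow_succ, Matrix.mul_apply, Fin.sum_univ_three]
  have h : ∀ i j, (B ^ 3) i j = 0 := by
    intro i j
    rw [hcu, hsq, hsq, hsq]
    fin_cases i <;> fin_cases j <;> simp only [Fin.zero_eta, Fin.mk_one, Fin.reduceFinMk, Fin.isValue]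
    · linear_combination (B 0 0 * B 0 0 + B 0 1 * B 1 0 + B 0 2 * B 2 0) * ht - B 0 0 * hE + hd
    · linear_combination (B 0 0 * B 0 1 + B 0 1 * B 1 1 + B 0 2 * B 2 1) * ht - B 0 1 * hE
    · linear_combination (B 0 0 * B 0 2 + B 0 1 * B 1 2 + B 0 2 * B 2 2) * ht - B 0 2 * hE
    · linear_combination (B 1 0 * B 0 0 + B 1 1 * B 1 0 + B 1 2 * B 2 0) * ht - B 1 0 * hE
    · linear_combination (B 1 0 * B 0 1 + B 1 1 * B 1 1 + B 1 2 * B 2 1) * ht - B 1 1 * hE + hd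
    · linear_combination (B 1 0 * B 0 2 + B 1 1 * B 1 2 + B 1 2 * B 2 2) * ht - B 1 2 * hE
    · linear_combination (B 2 0 * B 0 0 + B 2 1 * B 1 0 + B 2 2 * B 2 0) * ht - B 2 0 * hE
    · linear_combination (B 2 0 * B 0 1 + B 2 1 * B 1 1 + B 2 2 * B 2 1) * ht - B 2 1 * hE
    · linear_combination (B 2 0 * B 0 2 + B 2 1 * B 1 2 + B 2 2 * B 2 2) * ht - B 2 2 * hE + hd
  ext i j
  rw [h]; rfl

theorem e2z (B00 B01 B02 B10 B11 B12 B20 B21 B22 a0 a1 a2 b0 b1 b2 : ℤ)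
    (e0 : B00 * a0 + B01 * a1 + B02 * a2 = 0) (e1 : B10 * a0 + B11 * a1 + B12 * a2 = 0)
    (e2 : B20 * a0 + B21 * a1 + B22 * a2 = 0)
    (f1 : b0 * B01 + b1 * B11 + b2 * B21 = 0)
    (f2 : b0 * B02 + b1 * B12 + b2 * B22 = 0) (g : b0 * a0 + b1 * a1 + b2 * a2 = 0) :
    (b0 * a0) * (B00 * B11 - B01 * B10 + B00 * B22 - B02 * B20 + B11 * B22 - B12 * B21) = 0 := by
  linear_combination b0 * ((B11 + B22) * e0 - B01 * e1 - B02 * e2) +
    (B11 * B22 - B12 * B21) * g - (a1 * B22 - a2 * B12) * f1 + (a1 * B21 - a2 * B11) * f2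

theorem e2z' (B00 B01 B02 B10 B11 B12 B20 B21 B22 a0 a1 a2 b0 b1 b2 : ℤ)
    (e0 : B00 * a0 + B01 * a1 + B02 * a2 = 0) (e1 : B10 * a0 + B11 * a1 + B12 * a2 = 0)
    (e2 : B20 * a0 + B21 * a1 + B22 * a2 = 0)
    (f0 : b0 * B00 + b1 * B10 + b2 * B20 = 0)
    (f1 : b0 * B01 + b1 * B11 + b2 * B21 = 0)
    (f2 : b0 * B02 + b1 * B12 + b2 * B22 = 0) (g : b0 * a0 + b1 * a1 + b2 * a2 = 0) :
    (b1 * a0) * (B00 * B11 - B01 * B10 + B00 * B22 - B02 * B20 + B11 * B22 - B12 * B21) = 0 := by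
  grind

theorem e2zero (B : Matrix (Fin 3) (Fin 3) ℤ) (a b : Fin 3 → ℤ) (ha : a ≠ 0) (hb : b ≠ 0)
    (e : ∀ i, B i 0 * a 0 + B i 1 * a 1 + B i 2 * a 2 = 0)
    (f : ∀ j, b 0 * B 0 j + b 1 * B 1 j + b 2 * B 2 j = 0)
    (g : b 0 * a 0 + b 1 * a 1 + b 2 * a 2 = 0) :
    B 0 0 * B 1 1 - B 0 1 * B 1 0 + B 0 0 * B 2 2 - B 0 2 * B 2 0 +
      B 1 1 * B 2 2 - B 1 2 * B 2 1 = 0 := by
  have e0 := e 0
  have e1 := e 1
  have e2 := e 2
  have f0 := f 0
  have f1 := f 1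
  have f2 := f 2
  have key : ∀ i j, (b j * a i) * (B 0 0 * B 1 1 - B 0 1 * B 1 0 + B 0 0 * B 2 2 - B 0 2 * B 2 0 +
      B 1 1 * B 2 2 - B 1 2 * B 2 1) = 0 := by
    intro i j
    fin_cases i <;> fin_cases j <;> simp only [Fin.zero_eta, Fin.mk_one, Fin.reduceFinMk, Fin.isValue]
    -- a 0, b 0
    · exact e2z _ _ _ _ _ _ _ _ _ _ _ _ _ _ _ e0 e1 e2 f1 f2 g
    -- a 0, b 1
    · exact e2z' _ _ _ _ _ _ _ _ _ _ _ _ _ _ _ e0 e1 e2 f0 f1 f2 g
    -- a 0, b 2 : exchange 1 and 2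
    · have h := e2z' (B 0 0) (B 0 2) (B 0 1) (B 2 0) (B 2 2) (B 2 1) (B 1 0) (B 1 2) (B 1 1)
        (a 0) (a 2) (a 1) (b 0) (b 2) (b 1) (by linarith) (by linarith) (by linarith) (by linarith)
        (by linarith) (by linarith) (by linarith)
      linarith
    -- a 1, b 0 : exchange 0 and 1
    · have h := e2z' (B 1 1) (B 1 0) (B 1 2) (B 0 1) (B 0 0) (B 0 2) (B 2 1) (B 2 0) (B 2 2)
        (a 1) (a 0) (a 2) (b 1) (b 0) (b 2) (by linarith) (by linarith) (by linarith) (by linarith)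
        (by linarith) (by linarith) (by linarith)
      linarith
    -- a 1, b 1
    · have h := e2z (B 1 1) (B 1 0) (B 1 2) (B 0 1) (B 0 0) (B 0 2) (B 2 1) (B 2 0) (B 2 2)
        (a 1) (a 0) (a 2) (b 1) (b 0) (b 2) (by linarith) (by linarith) (by linarith) (by linarith)
        (by linarith) (by linarith)
      linarith
    -- a 1, b 2 : 1 2 0
    · have h := e2z' (B 1 1) (B 1 2) (B 1 0) (B 2 1) (B 2 2) (B 2 0) (B 0 1) (B 0 2) (B 0 0)
        (a 1) (a 2) (a 0) (b 1) (b 2) (b 0) (by linarith) (by linarith) (by linarith) (by linarith)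
        (by linarith) (by linarith) (by linarith)
      linarith
    -- a 2, b 0 : 2 0 1
    · have h := e2z' (B 2 2) (B 2 0) (B 2 1) (B 0 2) (B 0 0) (B 0 1) (B 1 2) (B 1 0) (B 1 1)
        (a 2) (a 0) (a 1) (b 2) (b 0) (b 1) (by linarith) (by linarith) (by linarith) (by linarith)
        (by linarith) (by linarith) (by linarith)
      linarith
    -- a 2, b 1 : 2 1 0
    · have h := e2z' (B 2 2) (B 2 1) (B 2 0) (B 1 2) (B 1 1) (B 1 0) (B 0 2) (B 0 1) (B 0 0)
        (a 2) (a 1) (a 0) (b 2) (b 1) (b 0) (by linarith) (by linarith) (by linarith) (by linarith)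
        (by linarith) (by linarith) (by linarith)
      linarith
    -- a 2, b 2
    · have h := e2z (B 2 2) (B 2 1) (B 2 0) (B 1 2) (B 1 1) (B 1 0) (B 0 2) (B 0 1) (B 0 0)
        (a 2) (a 1) (a 0) (b 2) (b 1) (b 0) (by linarith) (by linarith) (by linarith) (by linarith)
        (by linarith) (by linarith)
      linarith
  obtain ⟨i, hi⟩ := Function.ne_iff.1 ha
  obtain ⟨j, hj⟩ := Function.ne_iff.1 hb
  rcases mul_eq_zero.1 (key i j) with h | h
  · rcases mul_eq_zero.1 h with h | h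
    · exact absurd h hj
    · exact absurd h hi
  · exact h

/-- a matrix of determinant one fixing `a` and `b`, `b · a = 0`, is unipotent -/
theorem core (C : Matrix (Fin 3) (Fin 3) ℤ) (a b : Fin 3 → ℤ) (ha : a ≠ 0) (hb : b ≠ 0)
    (hdet : C.det = 1) (h1 : C *ᵥ a = a) (h2 : b ᵥ* C = b) (h3 : b ⬝ᵥ a = 0) : (C - 1) ^ 3 = 0 := by
  set B := C - 1 with hB
  have hC : C = B + 1 := by rw [hB, sub_add_cancel]
  have hBa : B *ᵥ a = 0 := by rw [hB, Matrix.sub_mulVec, h1, Matrix.one_mulVec, sub_self]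
  have hbB : b ᵥ* B = 0 := by rw [hB, Matrix.vecMul_sub, h2, Matrix.vecMul_one, sub_self]
  have e : ∀ i, B i 0 * a 0 + B i 1 * a 1 + B i 2 * a 2 = 0 := fun i => by
    have h := congrFun hBa i
    simpa [Matrix.mulVec, dotProduct, Fin.sum_univ_three] using h
  have f : ∀ j, b 0 * B 0 j + b 1 * B 1 j + b 2 * B 2 j = 0 := fun j => by
    have h := congrFun hbB j
    simpa [Matrix.vecMul, dotProduct, Fin.sum_univ_three] using h
  have g : b 0 * a 0 + b 1 * a 1 + b 2 * a 2 = 0 := by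
    simpa [dotProduct, Fin.sum_univ_three] using h3
  have hE := e2zero B a b ha hb e f g
  have hd : B.det = 0 := Matrix.exists_mulVec_eq_zero_iff.1 ⟨a, ha, hBa⟩
  rw [Matrix.det_fin_three] at hd
  rw [hC, Matrix.det_fin_three] at hdet
  simp [Matrix.add_apply] at hdet
  refine cube0 B ?_ hE (by linarith)
  linear_combination hdet - hE - hd

theorem cun : S_RK1 → S_RKZ → S_LIN → S_CUN := by
  intro hRK hRKZ hLIN X Y hX hX3 hXY
  set A : Matrix (Fin 3) (Fin 3) ℤ := X.val - 1 with hA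
  have hA0 : A ≠ 0 := by
    intro h
    apply hX
    apply Subtype.ext
    rw [hA, sub_eq_zero] at h
    exact h
  have hinj : Function.Injective (Int.castRingHom ℚ) := RingHom.injective_int _
  have hmap0 : ∀ M : Matrix (Fin 3) (Fin 3) ℤ, M.map (Int.castRingHom ℚ) = 0 → M = 0 := by
    intro M hM
    ext i j
    have h := congrFun (congrFun hM i) j
    have h' : Int.castRingHom ℚ (M i j) = Int.castRingHom ℚ 0 := by
      rw [map_zero]; exact h
    exact hinj h'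
  have hpow : ∀ k : ℕ, (A ^ k).map (Int.castRingHom ℚ) = (A.map (Int.castRingHom ℚ)) ^ k := fun k =>
    map_pow (Int.castRingHom ℚ).mapMatrix A k
  obtain ⟨k, v, φ, hv, hφ, hk⟩ := hRK ℚ (A.map (Int.castRingHom ℚ)) (fun h => hA0 (hmap0 A h)) (by
    rw [← hpow 3, hX3]
    ext i j
    simp)
  rw [← hpow k] at hk
  obtain ⟨a, b, hab⟩ := hRKZ ℚ 3 (A ^ k) v φ hk
  have hN : vecMulVec a b ≠ 0 := by
    intro h
    rw [hab, h] at hk
    obtain ⟨i, hi⟩ := Function.ne_iff.1 hv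
    obtain ⟨j, hj⟩ := Function.ne_iff.1 hφ
    have h1 := congrFun (congrFun hk i) j
    simp only [Matrix.map_apply, Matrix.zero_apply, map_zero, vecMulVec_apply] at h1
    exact mul_ne_zero hi hj h1.symm
  have ha : a ≠ 0 := by
    rintro rfl
    exact hN (by ext i j; simp [vecMulVec_apply])
  have hb : b ≠ 0 := by
    rintro rfl
    exact hN (by ext i j; simp [vecMulVec_apply])
  -- commutation
  have hXY' : X.val * Y.val = Y.val * X.val := by
    have := congrArg Subtype.val hXY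
    exact this
  have hYA : Commute Y.val A := by
    change Y.val * A = A * Y.val
    rw [hA, mul_sub, sub_mul, hXY', mul_one, one_mul]
  have hYN : Y.val * vecMulVec a b = vecMulVec a b * Y.val := by
    rw [← hab]
    exact hYA.pow_right k
  -- orthogonality
  have hk0 : k ≠ 0 := by
    rintro rfl
    rw [pow_zero] at hab
    have h00 := congrFun (congrFun hab 0) 0
    have h11 := congrFun (congrFun hab 1) 1
    have h01 := congrFun (congrFun hab 0) 1
    simp only [vecMulVec_apply, Matrix.one_apply_eq] at h00 h11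
    rw [Matrix.one_apply_ne (by decide), vecMulVec_apply] at h01
    have : (1 : ℤ) = 0 := by
      calc (1 : ℤ) = (a 0 * b 0) * (a 1 * b 1) := by rw [← h00, ← h11]; ring
        _ = (a 0 * b 1) * (a 1 * b 0) := by ring
        _ = 0 := by rw [← h01]; ring
    exact one_ne_zero this
  have hba : b ⬝ᵥ a = 0 := by
    have h1 : (vecMulVec a b) ^ 3 = 0 := by
      rw [← hab, ← pow_mul, mul_comm, pow_mul, hX3, zero_pow hk0]
    have h2 : (vecMulVec a b) ^ 3 = (b ⬝ᵥ a) ^ 2 • vecMulVec a b := by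
      rw [pow_succ, pow_two]
      ext i j
      simp only [Matrix.mul_apply, vecMulVec_apply, Fin.sum_univ_three, Matrix.smul_apply, smul_eq_mul,
        dotProduct]
      ring
    rw [h2] at h1
    rcases smul_eq_zero.1 h1 with h | h
    · exact pow_eq_zero_iff (two_ne_zero) |>.1 h
    · exact absurd h hN
  -- signs
  have hfix : ∃ ε : ℤ, ε * ε = 1 ∧ Y.val *ᵥ a = ε • a := by
    rcases hLIN 3 Y a b ha hb hYN with h | h
    · exact ⟨1, by norm_num, by rw [h, one_smul]⟩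
    · exact ⟨-1, by norm_num, by rw [h, neg_smul, one_smul]⟩
  obtain ⟨ε, hε, hYa⟩ := hfix
  have hbY : b ᵥ* Y.val = ε • b := by
    obtain ⟨i, hi⟩ := Function.ne_iff.1 ha
    ext j
    have h1 := congrFun (congrFun hYN i) j
    have h2 : (Y.val * vecMulVec a b) i j = (Y.val *ᵥ a) i * b j := by
      rw [Matrix.mul_vecMulVec, vecMulVec_apply]
    have h3 : (vecMulVec a b * Y.val) i j = a i * (b ᵥ* Y.val) j := by
      rw [Matrix.vecMulVec_mul, vecMulVec_apply]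
    rw [h2, h3, hYa] at h1
    simp only [Pi.smul_apply, smul_eq_mul] at h1 ⊢
    have hi' : a i ≠ 0 := hi
    apply mul_left_cancel₀ hi'
    rw [← h1]
    ring
  have hsq : ((Y ^ 2).val : Matrix (Fin 3) (Fin 3) ℤ) = Y.val * Y.val := by
    rw [pow_two]; rfl
  refine core (Y ^ 2).val a b ha hb (Y ^ 2).property ?_ ?_ hba
  · rw [hsq, ← Matrix.mulVec_mulVec, hYa, Matrix.mulVec_smul, hYa, smul_smul, hε, one_smul]
  · rw [hsq, ← Matrix.vecMul_vecMul, hbY, Matrix.smul_vecMul, hbY, smul_smul, hε, one_smul]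

end Pool.Agent.H372.GI
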